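import Pool.Agent.X205.OT.Seq

/-! Optimal couplings for the cost `|x-y|`: definitions, and the coupling part of the
counterexample (MP_e338b6_an). -/

set_option autoImplicit false

open Set MeasureTheory Metric
open scoped ENNReal NNReal

namespace Pool.Agent.X205.OT

/-- The closed support of a measure: the points all of whose neighbourhoods have positive mass. -/
def msupp {X : Type*} [TopologicalSpace X] [MeasurableSpace X] (π : Measure X) : Set X :=
  {p | ∀ U ∈ nhds p, π U ≠ 0}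

/-- Couplings (transport plans) of two measures on `ℝⁿ`. -/
def IsCoupling {n : ℕ} (μ ν : Measure (EuclideanSpace ℝ (Fin n)))
    (π : Measure (EuclideanSpace ℝ (Fin n) × EuclideanSpace ℝ (Fin n))) : Prop :=
  IsProbabilityMeasure π ∧ π.map Prod.fst = μ ∧ π.map Prod.snd = ν

/-- The transport cost `∫ |x - y| dπ`. -/
noncomputable def cost {n : ℕ}
    (π : Measure (EuclideanSpace ℝ (Fin n) × EuclideanSpace ℝ (Fin n))) : ℝ≥0∞ :=
  ∫⁻ p, edist p.1 p.2 ∂π

/-- Optimal couplings for the cost `|x - y|`. -/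
def IsOptimal {n : ℕ} (μ ν : Measure (EuclideanSpace ℝ (Fin n)))
    (π : Measure (EuclideanSpace ℝ (Fin n) × EuclideanSpace ℝ (Fin n))) : Prop :=
  IsCoupling μ ν π ∧ ∀ π', IsCoupling μ ν π' → cost π ≤ cost π'

/-- The plane. -/
abbrev E2 := EuclideanSpace ℝ (Fin 2)

/-- The point `(t, a)` of the plane. -/
noncomputable def pt (t a : ℝ) : E2 := WithLp.toLp 2 ![t, a]

@[simp] lemma pt_zero (t a : ℝ) : pt t a 0 = t := rfl
@[simp] lemma pt_one (t a : ℝ) : pt t a 1 = a := rfl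

lemma abs_coord_le (x y : E2) (i : Fin 2) : |x i - y i| ≤ dist x y := by
  have := PiLp.norm_apply_le (p := 2) (x - y) i
  rw [dist_eq_norm]
  simpa using this

lemma dist_sq (x y : E2) : dist x y ^ 2 = (x 0 - y 0) ^ 2 + (x 1 - y 1) ^ 2 := by
  rw [EuclideanSpace.dist_eq, Real.sq_sqrt (by positivity), Fin.sum_univ_two, Real.dist_eq,
    Real.dist_eq, sq_abs, sq_abs]

lemma dist_le_add (x y : E2) : dist x y ≤ |x 0 - y 0| + |x 1 - y 1| := by
  apply le_of_sq_le_sq _ (by positivity)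
  rw [dist_sq]
  nlinarith [abs_nonneg (x 0 - y 0), abs_nonneg (x 1 - y 1), sq_abs (x 0 - y 0),
    sq_abs (x 1 - y 1)]

/-- The data of the construction. -/
structure Data where
  t : ℕ → ℝ
  r : ℕ → ℝ
  a : ℕ → ℝ
  b : ℕ → ℝ
  good : ℕ → Prop
  K : Set ℝ
  hr : ∀ k, 0 < r k
  hr8 : ∀ k, r k ≤ 1 / 8
  ha : ∀ k, a k ∈ Icc (1 : ℝ) 2
  hb : ∀ k, b k ∈ Icc (3 : ℝ) 4
  hin : ∀ k, good k → closedBall (t k) (r k) ⊆ Ioo (-1) 2
  hdis : ∀ i k, i < k → good k → Disjoint (closedBall (t i) (r i)) (closedBall (t k) (r k))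
  hK : volume K ≠ 0
  happ : ∀ τ ∈ K, ∀ α ∈ Icc (1 : ℝ) 2, ∀ β ∈ Icc (3 : ℝ) 4, ∀ ε : ℝ, 0 < ε →
      ∃ k, good k ∧ |t k - τ| < ε ∧ |a k - α| < ε ∧ |b k - β| < ε ∧ r k < ε

theorem exists_data : Nonempty Data := by
  obtain ⟨t, r, lab, good, K, h1, h2, h3, h4, h5, h6⟩ := exists_seq
  let B : Set (ℝ × ℝ) := Icc (1 : ℝ) 2 ×ˢ Icc (3 : ℝ) 4
  haveI : Nonempty B := ⟨⟨(1, 3), by simp [B]; norm_num⟩⟩
  let u : ℕ → B := TopologicalSpace.denseSeq B
  refine ⟨⟨t, r, fun k => (u (lab k)).1.1, fun k => (u (lab k)).1.2, good, K, h1, h2,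
    fun k => (u (lab k)).2.1, fun k => (u (lab k)).2.2, h3, h4, h5, ?_⟩⟩
  intro τ hτ α hα β hβ ε hε
  have hd := TopologicalSpace.denseRange_denseSeq B
  obtain ⟨j, hj⟩ := hd.exists_dist_lt (⟨(α, β), hα, hβ⟩ : B) hε
  obtain ⟨k, hk1, hk2, hk3, hk4⟩ := h6 τ hτ j ε hε
  have hj' : dist (α, β) (u j).1 < ε := hj
  rw [Prod.dist_eq, max_lt_iff, Real.dist_eq, Real.dist_eq] at hj'
  refine ⟨k, hk1, hk3, ?_, ?_, hk4⟩
  · show |(u (lab k)).1.1 - α| < ε
    rw [hk2, abs_sub_comm]; exact hj'.1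
  · show |(u (lab k)).1.2 - β| < ε
    rw [hk2, abs_sub_comm]; exact hj'.2

namespace Data

variable (D : Data)

/-- Source centres. -/
noncomputable def p (k : ℕ) : E2 := pt (D.t k) (D.a k)
/-- Target centres. -/
noncomputable def q (k : ℕ) : E2 := pt (D.t k) (D.b k)
/-- Vertical shifts. -/
noncomputable def s (k : ℕ) : E2 := pt 0 (D.b k - D.a k)

lemma p_add_s (k : ℕ) : D.p k + D.s k = D.q k := by
  ext i
  fin_cases i
  · simp [p, q, s]
  · simp [p, q, s]

lemma good_unique {i k : ℕ} (hi : D.good i) (hk : D.good k) {x : ℝ}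
    (hxi : |x - D.t i| < D.r i) (hxk : |x - D.t k| < D.r k) : i = k := by
  rcases lt_trichotomy i k with h | h | h
  · exact absurd (show x ∈ closedBall (D.t k) (D.r k) by
      rw [mem_closedBall, Real.dist_eq]; exact hxk.le)
      (Set.disjoint_left.mp (D.hdis i k h hk)
        (by rw [mem_closedBall, Real.dist_eq]; exact hxi.le))
  · exact h
  · exact absurd (show x ∈ closedBall (D.t i) (D.r i) by
      rw [mem_closedBall, Real.dist_eq]; exact hxi.le)
      (Set.disjoint_left.mp (D.hdis k i h hi)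
        (by rw [mem_closedBall, Real.dist_eq]; exact hxk.le))

section coupling

variable (m : ℕ → Measure E2) (hm : ∀ k, m k (ball (D.p k) (D.r k))ᶜ = 0)
  (hgood : ∀ k, D.good k ↔ m k ≠ 0)

/-- Target pieces. -/
noncomputable def tgt (k : ℕ) : Measure E2 := (m k).map (fun x => x + D.s k)

/-- The vertical coupling. -/
noncomputable def vert : Measure (E2 × E2) :=
  Measure.sum fun k => (m k).map (fun x => (x, x + D.s k))

lemma meas_pair (k : ℕ) : Measurable fun x : E2 => (x, x + D.s k) :=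
  measurable_id.prodMk (measurable_id.add_const _)

lemma vert_fst : (D.vert m).map Prod.fst = Measure.sum m := by
  rw [vert, Measure.map_sum measurable_fst.aemeasurable]
  congr 1
  funext k
  rw [Measure.map_map measurable_fst (D.meas_pair k)]
  exact Measure.map_id

lemma vert_snd : (D.vert m).map Prod.snd = Measure.sum (D.tgt m) := by
  rw [vert, Measure.map_sum measurable_snd.aemeasurable]
  congr 1
  funext k
  rw [Measure.map_map measurable_snd (D.meas_pair k)]
  rfl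

lemma vert_coupling (h1 : IsProbabilityMeasure (Measure.sum m)) :
    IsCoupling (Measure.sum m) (Measure.sum (D.tgt m)) (D.vert m) := by
  refine ⟨⟨?_⟩, D.vert_fst m, D.vert_snd m⟩
  have h := h1.measure_univ
  rw [← D.vert_fst m, Measure.map_apply measurable_fst MeasurableSet.univ] at h
  simpa using h

include hm hgood in
lemma src_ae : ∀ᵐ x ∂(Measure.sum m), ∃ k, D.good k ∧ x ∈ ball (D.p k) (D.r k) := by
  rw [Measure.ae_sum_iff]
  intro k
  by_cases hk : m k = 0
  · rw [hk]; simp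
  · have : ∀ᵐ x ∂(m k), x ∈ ball (D.p k) (D.r k) := by
      rw [ae_iff]; exact hm k
    filter_upwards [this] with x hx
    exact ⟨k, (hgood k).mpr hk, hx⟩

include hm hgood in
lemma tgt_ae : ∀ᵐ x ∂(Measure.sum (D.tgt m)), ∃ k, D.good k ∧ x ∈ ball (D.q k) (D.r k) := by
  rw [Measure.ae_sum_iff]
  intro k
  by_cases hk : m k = 0
  · rw [tgt, hk]; simp
  · have h1 : ∀ᵐ x ∂(m k), x ∈ ball (D.p k) (D.r k) := by
      rw [ae_iff]; exact hm k
    have h2 : ∀ᵐ x ∂(D.tgt m k), x ∈ ball (D.q k) (D.r k) := by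
      refine (ae_map_iff (f := fun x : E2 => x + D.s k) (p := fun x => x ∈ ball (D.q k) (D.r k))
        (measurable_id.add_const _).aemeasurable measurableSet_ball).mpr ?_
      filter_upwards [h1] with x hx
      rw [mem_ball] at hx ⊢
      rw [← D.p_add_s k, dist_add_right]
      exact hx
    filter_upwards [h2] with x hx
    exact ⟨k, (hgood k).mpr hk, hx⟩

lemma src_coord {k : ℕ} {x : E2} (hx : x ∈ ball (D.p k) (D.r k)) :
    |x 0 - D.t k| < D.r k ∧ 7 / 8 < x 1 ∧ x 1 < 17 / 8 := by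
  rw [mem_ball] at hx
  have h0 := (abs_coord_le x (D.p k) 0).trans_lt hx
  have h1 := (abs_coord_le x (D.p k) 1).trans_lt hx
  have e1 : D.p k 1 = D.a k := rfl
  rw [e1] at h1
  have := D.hr8 k
  have ha := D.ha k
  rw [abs_lt] at h1
  exact ⟨h0, by linarith [ha.1], by linarith [ha.2]⟩

lemma tgt_coord {k : ℕ} {x : E2} (hx : x ∈ ball (D.q k) (D.r k)) :
    |x 0 - D.t k| < D.r k ∧ 23 / 8 < x 1 ∧ x 1 < 33 / 8 := by
  rw [mem_ball] at hx
  have h0 := (abs_coord_le x (D.q k) 0).trans_lt hx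
  have h1 := (abs_coord_le x (D.q k) 1).trans_lt hx
  have e1 : D.q k 1 = D.b k := rfl
  rw [e1] at h1
  have := D.hr8 k
  have hb := D.hb k
  rw [abs_lt] at h1
  exact ⟨h0, by linarith [hb.1], by linarith [hb.2]⟩

/-- The vertical gain. -/
noncomputable def gain (π : Measure (E2 × E2)) : ℝ≥0∞ :=
  ∫⁻ z, ENNReal.ofReal (z.2 1 - z.1 1) ∂π

lemma meas_c1 : Measurable fun x : E2 => x 1 := by fun_prop

include hm hgood in
lemma coupling_ae {π : Measure (E2 × E2)}
    (hπ : IsCoupling (Measure.sum m) (Measure.sum (D.tgt m)) π) :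
    ∀ᵐ z ∂π, (∃ k, D.good k ∧ z.1 ∈ ball (D.p k) (D.r k)) ∧
      ∃ k, D.good k ∧ z.2 ∈ ball (D.q k) (D.r k) := by
  have h1 := D.src_ae m hm hgood
  have h2 := D.tgt_ae m hm hgood
  rw [← hπ.2.1] at h1
  rw [← hπ.2.2] at h2
  filter_upwards [ae_of_ae_map measurable_fst.aemeasurable h1,
    ae_of_ae_map measurable_snd.aemeasurable h2] with z hz1 hz2
  exact ⟨hz1, hz2⟩

include hm hgood in
lemma gain_add {π : Measure (E2 × E2)}
    (hπ : IsCoupling (Measure.sum m) (Measure.sum (D.tgt m)) π) :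
    gain π + ∫⁻ x, ENNReal.ofReal (x 1) ∂(Measure.sum m) =
      ∫⁻ x, ENNReal.ofReal (x 1) ∂(Measure.sum (D.tgt m)) := by
  rw [gain, ← hπ.2.1, ← hπ.2.2, lintegral_map (by fun_prop) measurable_fst,
    lintegral_map (by fun_prop) measurable_snd, ← lintegral_add_left (by fun_prop)]
  apply lintegral_congr_ae
  have h := D.coupling_ae m hm hgood hπ
  filter_upwards [h] with z hz
  obtain ⟨⟨k, _, hk⟩, ⟨j, _, hj⟩⟩ := hz
  have h1 := D.src_coord hk
  have h2 := D.tgt_coord hj
  rw [← ENNReal.ofReal_add (by linarith [h1.2.2, h2.2.1]) (by linarith [h1.2.1])]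
  congr 1
  ring

include hm hgood in
lemma src_fin (h1 : IsProbabilityMeasure (Measure.sum m)) :
    ∫⁻ x, ENNReal.ofReal (x 1) ∂(Measure.sum m) ≠ ∞ := by
  have : ∫⁻ x, ENNReal.ofReal (x 1) ∂(Measure.sum m) ≤
      ∫⁻ _, ENNReal.ofReal (17 / 8) ∂(Measure.sum m) := by
    apply lintegral_mono_ae
    filter_upwards [D.src_ae m hm hgood] with x hx
    obtain ⟨k, _, hk⟩ := hx
    exact ENNReal.ofReal_le_ofReal (D.src_coord hk).2.2.le
  refine ne_top_of_le_ne_top ?_ this
  rw [lintegral_const, measure_univ, mul_one]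
  exact ENNReal.ofReal_ne_top

include hm hgood in
lemma tgt_fin (h1 : IsProbabilityMeasure (Measure.sum m)) :
    ∫⁻ x, ENNReal.ofReal (x 1) ∂(Measure.sum (D.tgt m)) ≠ ∞ := by
  have h2 : (Measure.sum (D.tgt m)) univ = 1 := by
    have := (D.vert_coupling m h1).1.measure_univ
    rw [← D.vert_snd m, Measure.map_apply measurable_snd MeasurableSet.univ]
    simpa using this
  have : ∫⁻ x, ENNReal.ofReal (x 1) ∂(Measure.sum (D.tgt m)) ≤
      ∫⁻ _, ENNReal.ofReal (33 / 8) ∂(Measure.sum (D.tgt m)) := by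
    apply lintegral_mono_ae
    filter_upwards [D.tgt_ae m hm hgood] with x hx
    obtain ⟨k, _, hk⟩ := hx
    exact ENNReal.ofReal_le_ofReal (D.tgt_coord hk).2.2.le
  refine ne_top_of_le_ne_top ?_ this
  rw [lintegral_const, h2, mul_one]
  exact ENNReal.ofReal_ne_top

lemma gain_le_cost (π : Measure (E2 × E2)) : gain π ≤ cost π := by
  apply lintegral_mono
  intro z
  show ENNReal.ofReal (z.2 1 - z.1 1) ≤ edist z.1 z.2
  rw [edist_dist]
  apply ENNReal.ofReal_le_ofReal
  have := abs_coord_le z.1 z.2 1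
  rw [abs_sub_comm] at this
  exact (le_abs_self _).trans this

lemma cost_vert : cost (D.vert m) = gain (D.vert m) := by
  rw [cost, gain, vert, lintegral_sum_measure, lintegral_sum_measure]
  congr 1
  funext k
  rw [lintegral_map (by fun_prop) (D.meas_pair k), lintegral_map (by fun_prop) (D.meas_pair k)]
  congr 1
  funext x
  have hb := D.hb k
  have ha := D.ha k
  have e1 : (x + D.s k) 1 = x 1 + (D.b k - D.a k) := rfl
  have e0 : (x + D.s k) 0 = x 0 + 0 := rfl
  show edist x (x + D.s k) = ENNReal.ofReal ((x + D.s k) 1 - x 1)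
  rw [edist_dist, e1]
  congr 1
  have h := dist_sq x (x + D.s k)
  rw [e1, e0] at h
  have h0 := dist_nonneg (x := x) (y := x + D.s k)
  nlinarith [hb.1, ha.2]

include hm hgood in
/-- The vertical coupling is optimal. -/
theorem vert_optimal (h1 : IsProbabilityMeasure (Measure.sum m)) :
    IsOptimal (Measure.sum m) (Measure.sum (D.tgt m)) (D.vert m) := by
  refine ⟨D.vert_coupling m h1, fun π' hπ' => ?_⟩
  have e1 := D.gain_add m hm hgood (D.vert_coupling m h1)
  have e2 := D.gain_add m hm hgood hπ'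
  rw [← e2] at e1
  have e3 := (ENNReal.add_left_inj (D.src_fin m hm hgood h1)).mp e1
  rw [D.cost_vert m, e3]
  exact gain_le_cost π'

include hm hgood in
/-- Optimal couplings only move mass vertically. -/
theorem optimal_ae (h1 : IsProbabilityMeasure (Measure.sum m)) {π : Measure (E2 × E2)}
    (hπ : IsOptimal (Measure.sum m) (Measure.sum (D.tgt m)) π) :
    ∀ᵐ z ∂π, z.1 0 = z.2 0 := by
  have e1 := D.gain_add m hm hgood (D.vert_coupling m h1)
  have e2 := D.gain_add m hm hgood hπ.1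
  have e3 := (ENNReal.add_left_inj (D.src_fin m hm hgood h1)).mp (e1.trans e2.symm)
  have c1 : cost π ≤ gain π := by
    rw [← e3, ← D.cost_vert m]
    exact hπ.2 _ (D.vert_coupling m h1)
  have hfin : gain π ≠ ∞ := by
    refine ne_top_of_le_ne_top (D.tgt_fin m hm hgood h1) ?_
    rw [← e2]
    exact le_self_add
  have hae : (fun z : E2 × E2 => ENNReal.ofReal (z.2 1 - z.1 1)) =ᵐ[π]
      fun z => edist z.1 z.2 := by
    apply ae_eq_of_ae_le_of_lintegral_le _ hfin (by fun_prop) c1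
    filter_upwards with z
    rw [edist_dist]
    apply ENNReal.ofReal_le_ofReal
    have := abs_coord_le z.1 z.2 1
    rw [abs_sub_comm] at this
    exact (le_abs_self _).trans this
  filter_upwards [hae, D.coupling_ae m hm hgood hπ.1] with z hz hz'
  obtain ⟨⟨k, _, hk⟩, ⟨j, _, hj⟩⟩ := hz'
  have h1 := D.src_coord hk
  have h2 := D.tgt_coord hj
  rw [edist_dist, ENNReal.ofReal_eq_ofReal_iff (by linarith [h1.2.2, h2.2.1]) dist_nonneg] at hz
  have h3 := dist_sq z.1 z.2
  rw [← hz] at h3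
  have h4 : (z.1 0 - z.2 0) ^ 2 = 0 := by nlinarith
  have := pow_eq_zero_iff (two_ne_zero) |>.mp h4
  linarith

include hm hgood in
theorem optimal_pos (h1 : IsProbabilityMeasure (Measure.sum m)) {π : Measure (E2 × E2)}
    (hπ : IsOptimal (Measure.sum m) (Measure.sum (D.tgt m)) π) {k : ℕ} (hk : D.good k) :
    π (ball (D.p k) (D.r k) ×ˢ ball (D.q k) (D.r k)) ≠ 0 := by
  intro h0
  have h2 : π (Prod.fst ⁻¹' ball (D.p k) (D.r k)) ≤
      π (ball (D.p k) (D.r k) ×ˢ ball (D.q k) (D.r k)) := by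
    apply measure_mono_ae
    filter_upwards [D.optimal_ae m hm hgood h1 hπ, D.coupling_ae m hm hgood hπ.1] with z hz hz'
    intro hzk
    obtain ⟨_, ⟨j, hjg, hj⟩⟩ := hz'
    have a1 := (D.src_coord hzk).1
    have a2 := (D.tgt_coord hj).1
    rw [← hz] at a2
    have : j = k := D.good_unique hjg hk a2 a1
    subst this
    exact ⟨hzk, hj⟩
  rw [h0, ← Measure.map_apply measurable_fst measurableSet_ball, hπ.1.2.1] at h2
  have h3 : m k (ball (D.p k) (D.r k)) ≤ (Measure.sum m) (ball (D.p k) (D.r k)) :=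
    Measure.le_sum m k _
  have h4 : m k (ball (D.p k) (D.r k)) = 0 := le_antisymm (h3.trans h2) bot_le
  have h5 : m k univ = 0 := by
    rw [← union_compl_self (ball (D.p k) (D.r k))]
    exact measure_union_null h4 (hm k)
  exact (hgood k).mp hk (Measure.measure_univ_eq_zero.mp h5)

include hm hgood in
theorem optimal_supp (h1 : IsProbabilityMeasure (Measure.sum m)) {π : Measure (E2 × E2)}
    (hπ : IsOptimal (Measure.sum m) (Measure.sum (D.tgt m)) π) {τ α β : ℝ} (hτ : τ ∈ D.K)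
    (hα : α ∈ Icc (1 : ℝ) 2) (hβ : β ∈ Icc (3 : ℝ) 4) : (pt τ α, pt τ β) ∈ msupp π := by
  intro U hU
  obtain ⟨ε, hε, hsub⟩ := Metric.mem_nhds_iff.mp hU
  obtain ⟨k, hk, h2, h3, h4, h5⟩ := D.happ τ hτ α hα β hβ (ε / 4) (by positivity)
  have key : ball (D.p k) (D.r k) ×ˢ ball (D.q k) (D.r k) ⊆ ball (pt τ α, pt τ β) ε := by
    rintro ⟨x, y⟩ ⟨hx, hy⟩
    simp only [mem_ball] at hx hy
    have d1 : dist (D.p k) (pt τ α) ≤ |D.t k - τ| + |D.a k - α| := dist_le_add _ _
    have d2 : dist (D.q k) (pt τ β) ≤ |D.t k - τ| + |D.b k - β| := dist_le_add _ _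
    have d3 := dist_triangle x (D.p k) (pt τ α)
    have d4 := dist_triangle y (D.q k) (pt τ β)
    rw [mem_ball, Prod.dist_eq, max_lt_iff]
    constructor
    · show dist x (pt τ α) < ε
      linarith
    · show dist y (pt τ β) < ε
      linarith
  intro h0
  apply D.optimal_pos m hm hgood h1 hπ hk
  exact measure_mono_null (key.trans hsub) h0

include hm hgood in
theorem optimal_dimH (h1 : IsProbabilityMeasure (Measure.sum m)) {π : Measure (E2 × E2)}
    (hπ : IsOptimal (Measure.sum m) (Measure.sum (D.tgt m)) π) : 3 ≤ dimH (msupp π) := by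
  let P : E2 × E2 → (Fin 3 → ℝ) := fun z => ![z.1 0, z.1 1, z.2 1]
  have hP : LipschitzWith 1 P := by
    apply LipschitzWith.of_dist_le_mul
    intro z w
    rw [NNReal.coe_one, one_mul, dist_pi_le_iff dist_nonneg]
    have a1 := (abs_coord_le z.1 w.1 0).trans (show dist z.1 w.1 ≤ dist z w from le_max_left _ _)
    have a2 := (abs_coord_le z.1 w.1 1).trans (show dist z.1 w.1 ≤ dist z w from le_max_left _ _)
    have a3 := (abs_coord_le z.2 w.2 1).trans (show dist z.2 w.2 ≤ dist z w from le_max_right _ _)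
    intro i
    fin_cases i
    · exact a1
    · exact a2
    · exact a3
  have hsub : Set.pi univ ![D.K, Icc (1 : ℝ) 2, Icc (3 : ℝ) 4] ⊆ P '' msupp π := by
    intro v hv
    have v0 : v 0 ∈ D.K := hv 0 trivial
    have v1 : v 1 ∈ Icc (1 : ℝ) 2 := hv 1 trivial
    have v2 : v 2 ∈ Icc (3 : ℝ) 4 := hv 2 trivial
    refine ⟨(pt (v 0) (v 1), pt (v 0) (v 2)), D.optimal_supp m hm hgood h1 hπ v0 v1 v2, ?_⟩
    funext i
    fin_cases i <;> rfl
  have hvol : volume (Set.pi univ ![D.K, Icc (1 : ℝ) 2, Icc (3 : ℝ) 4]) ≠ 0 := by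
    rw [volume_pi_pi, Fin.prod_univ_three]
    simp only [Matrix.cons_val_zero, Matrix.cons_val_one, Matrix.cons_val_two, Real.volume_Icc]
    refine mul_ne_zero (mul_ne_zero D.hK ?_) ?_
    · norm_num
    · simp [Real.volume_Icc]; norm_num
  have hH : (3 : ℝ≥0∞) ≤ dimH (Set.pi univ ![D.K, Icc (1 : ℝ) 2, Icc (3 : ℝ) 4]) := by
    have : ((3 : ℝ≥0) : ℝ≥0∞) ≤ dimH (Set.pi univ ![D.K, Icc (1 : ℝ) 2, Icc (3 : ℝ) 4]) := by
      apply le_dimH_of_hausdorffMeasure_ne_zero
      have e : (((3 : ℝ≥0) : ℝ)) = (Fintype.card (Fin 3) : ℝ) := by simp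
      rw [e, hausdorffMeasure_pi_real]
      exact hvol
    simpa using this
  calc (3 : ℝ≥0∞) ≤ _ := hH
    _ ≤ dimH (P '' msupp π) := dimH_mono hsub
    _ ≤ dimH (msupp π) := hP.dimH_image_le _

end coupling

end Data

end Pool.Agent.X205.OT
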