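import Mathlib

/-! A sequence of disjoint intervals with labels, accumulating with every label at every point of a
set of positive measure (for MP_e338b6_an). -/

set_option autoImplicit false

open Set MeasureTheory Metric

namespace Pool.Agent.X205.OT

lemma step (O : Set ℝ) (hO : IsOpen O) (δ : ℝ) (hδ : 0 < δ) (s : Finset (ℝ × ℝ)) :
    ∃ c : ℝ × ℝ, 0 < c.2 ∧ c.2 ≤ δ ∧
      ((O \ ⋃ d ∈ s, closedBall d.1 d.2).Nonempty →
        closedBall c.1 c.2 ⊆ O \ ⋃ d ∈ s, closedBall d.1 d.2) := by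
  by_cases h : (O \ ⋃ d ∈ s, closedBall d.1 d.2).Nonempty
  · obtain ⟨x, hx⟩ := h
    have hop : IsOpen (O \ ⋃ d ∈ s, closedBall d.1 d.2) := by
      apply hO.sdiff
      exact isClosed_biUnion_finset fun d _ => isClosed_closedBall
    obtain ⟨ε, hε, hsub⟩ := Metric.isOpen_iff.mp hop x hx
    refine ⟨(x, min (ε / 2) δ), by simp [hε, hδ], min_le_right _ _, fun _ => ?_⟩
    refine Subset.trans ?_ hsub
    apply closedBall_subset_ball
    exact lt_of_le_of_lt (min_le_left _ _) (by linarith)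
  · exact ⟨(0, δ), hδ, le_rfl, fun h' => absurd h' h⟩

/-- Disjoint intervals `closedBall (t k) (r k)`, `k ∈ good`, with labels, inside `(-1,2)`. -/
theorem exists_seq : ∃ (t r : ℕ → ℝ) (lab : ℕ → ℕ) (good : ℕ → Prop) (K : Set ℝ),
    (∀ k, 0 < r k) ∧ (∀ k, r k ≤ 1 / 8) ∧
    (∀ k, good k → closedBall (t k) (r k) ⊆ Ioo (-1) 2) ∧
    (∀ i k, i < k → good k → Disjoint (closedBall (t i) (r i)) (closedBall (t k) (r k))) ∧
    volume K ≠ 0 ∧
    (∀ τ ∈ K, ∀ j : ℕ, ∀ ε : ℝ, 0 < ε →
      ∃ k, good k ∧ lab k = j ∧ |t k - τ| < ε ∧ r k < ε) := by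
  obtain ⟨e, he⟩ := exists_surjective_nat (ℚ × ℚ × ℕ)
  let O : ℕ → Set ℝ := fun k => Ioo ((e k).1 : ℝ) ((e k).2.1 : ℝ) ∩ Ioo (-1) 2
  have hO : ∀ k, IsOpen (O k) := fun k => isOpen_Ioo.inter isOpen_Ioo
  let δ : ℕ → ℝ := fun k => (1 / 2) ^ (k + 3)
  have hδ : ∀ k, 0 < δ k := fun k => by positivity
  choose F hF1 hF2 hF3 using fun (k : ℕ) (s : Finset (ℝ × ℝ)) => step (O k) (hO k) (δ k) (hδ k) s
  let G : ℕ → Finset (ℝ × ℝ) := fun k => Nat.rec ∅ (fun m s => insert (F m s) s) k
  have hG : ∀ k, G (k + 1) = insert (F k (G k)) (G k) := fun k => rfl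
  let c : ℕ → ℝ × ℝ := fun k => F k (G k)
  have hmem : ∀ i k, i < k → c i ∈ G k := by
    intro i k hik
    induction k with
    | zero => omega
    | succ m ih =>
      rw [hG m]
      rcases Nat.lt_succ_iff_lt_or_eq.mp hik with h | h
      · exact Finset.mem_insert_of_mem (ih h)
      · rw [h]; exact Finset.mem_insert_self _ _
  let good : ℕ → Prop := fun k => (O k \ ⋃ d ∈ G k, closedBall d.1 d.2).Nonempty
  have hgood : ∀ k, good k → closedBall (c k).1 (c k).2 ⊆ O k \ ⋃ d ∈ G k, closedBall d.1 d.2 :=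
    fun k hk => hF3 k (G k) hk
  refine ⟨fun k => (c k).1, fun k => (c k).2, fun k => (e k).2.2, good,
    Ioo 0 1 \ ⋃ k, closedBall (c k).1 (c k).2, fun k => hF1 _ _, ?_, ?_, ?_, ?_, ?_⟩
  · intro k
    refine (hF2 k (G k)).trans ?_
    have : (1 / 2 : ℝ) ^ (k + 3) ≤ (1 / 2) ^ 3 :=
      pow_le_pow_of_le_one (by norm_num) (by norm_num) (by omega)
    calc δ k ≤ (1 / 2) ^ 3 := this
      _ = 1 / 8 := by norm_num
  · intro k hk
    exact (hgood k hk).trans (sdiff_subset.trans inter_subset_right)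
  · intro i k hik hk
    rw [Set.disjoint_left]
    intro x hxi hxk
    have := (hgood k hk hxk).2
    apply this
    exact mem_biUnion (Finset.mem_coe.mpr (hmem i k hik)) hxi
  · intro h0
    have h1 : volume (Ioo (0 : ℝ) 1) ≤
        volume (Ioo (0 : ℝ) 1 \ ⋃ k, closedBall (c k).1 (c k).2) +
          volume (⋃ k, closedBall (c k).1 (c k).2) := by
      refine (measure_mono ?_).trans (measure_union_le _ _)
      intro x hx
      by_cases hx' : x ∈ ⋃ k, closedBall (c k).1 (c k).2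
      · exact Or.inr hx'
      · exact Or.inl ⟨hx, hx'⟩
    rw [h0, zero_add, Real.volume_Ioo] at h1
    have h2 : volume (⋃ k, closedBall (c k).1 (c k).2) ≤
        ∑' k : ℕ, ENNReal.ofReal ((1 / 2) ^ (k + 2)) := by
      refine (measure_iUnion_le _).trans (ENNReal.tsum_le_tsum fun k => ?_)
      rw [Real.volume_closedBall]
      apply ENNReal.ofReal_le_ofReal
      have := hF2 k (G k)
      have e2 : δ k = (1 / 2) ^ (k + 3) := rfl
      have e3 : (1 / 2 : ℝ) ^ (k + 3) = (1 / 2) ^ (k + 2) * (1 / 2) := by rw [pow_succ]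
      have : (c k).2 ≤ (1 / 2) ^ (k + 2) * (1 / 2) := by
        calc (c k).2 ≤ δ k := hF2 k (G k)
          _ = _ := by rw [e2, e3]
      linarith
    have h3 : ∑' k : ℕ, ENNReal.ofReal ((1 / 2) ^ (k + 2)) = ENNReal.ofReal (1 / 2) := by
      rw [← ENNReal.ofReal_tsum_of_nonneg (fun k => by positivity)]
      · congr 1
        have : ∀ k : ℕ, (1 / 2 : ℝ) ^ (k + 2) = (1 / 4) * (1 / 2) ^ k := by
          intro k; rw [pow_add]; ring
        simp_rw [this]
        rw [tsum_mul_left, tsum_geometric_two]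
        norm_num
      · have : Summable fun k : ℕ => (1 / 2 : ℝ) ^ k := summable_geometric_two
        exact (summable_nat_add_iff 2).mpr this
    have h4 := h1.trans (h2.trans h3.le)
    rw [ENNReal.ofReal_le_ofReal_iff (by norm_num)] at h4
    norm_num at h4
  · intro τ hτ j ε hε
    obtain ⟨q1, hq1, hq1'⟩ := exists_rat_btwn (show τ - ε / 4 < τ by linarith)
    obtain ⟨q2, hq2, hq2'⟩ := exists_rat_btwn (show τ < τ + ε / 4 by linarith)
    obtain ⟨k, hk⟩ := he (q1, q2, j)
    have hτO : τ ∈ O k \ ⋃ d ∈ G k, closedBall d.1 d.2 := by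
      constructor
      · refine ⟨?_, ?_⟩
        · rw [hk]; exact ⟨hq1', hq2⟩
        · exact ⟨by linarith [hτ.1.1], by linarith [hτ.1.2]⟩
      · intro hmem'
        -- every member of `G k` is some `c i`
        have hGc : ∀ m, ∀ d ∈ G m, ∃ i, c i = d := by
          intro m
          induction m with
          | zero => intro d hd; exact absurd hd (Finset.notMem_empty d)
          | succ m ih =>
            intro d hd
            rw [hG m] at hd
            rcases Finset.mem_insert.mp hd with rfl | hd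
            · exact ⟨m, rfl⟩
            · exact ih d hd
        obtain ⟨d, hd, hd'⟩ := mem_iUnion₂.mp hmem'
        obtain ⟨i, rfl⟩ := hGc k d hd
        exact hτ.2 (mem_iUnion.mpr ⟨i, hd'⟩)
    have hgk : good k := ⟨τ, hτO⟩
    have hsub := (hgood k hgk).trans (sdiff_subset.trans inter_subset_left)
    rw [hk] at hsub
    have hr : 0 < (c k).2 := hF1 _ _
    have hc1 : (c k).1 ∈ Ioo (q1 : ℝ) q2 := hsub (mem_closedBall_self hr.le)
    have hc2 : (c k).1 + (c k).2 ∈ Ioo (q1 : ℝ) q2 := hsub (by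
      rw [mem_closedBall, Real.dist_eq, add_sub_cancel_left, abs_of_pos hr])
    refine ⟨k, hgk, by show (e k).2.2 = j; rw [hk], ?_, ?_⟩
    · rw [abs_lt]
      constructor
      · linarith [hc1.1]
      · linarith [hc1.2]
    · linarith [hc1.1, hc2.2]

end Pool.Agent.X205.OT
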