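import Pool.Agent.X205.OT.Core

/-! Smooth densities for the counterexample (MP_e338b6_an). -/

set_option autoImplicit false

open Set MeasureTheory Metric
open scoped ENNReal NNReal ContDiff

namespace Pool.Agent.X205.OT

lemma exists_weight (g : E2 → ℝ) (hg : ContDiff ℝ ∞ g) (hc : HasCompactSupport g) (n : ℕ) :
    ∃ R : ℝ, 0 < R ∧ ∀ r, 0 ≤ r → r ≤ R → ∀ i ≤ n, ∀ x,
      ‖iteratedFDeriv ℝ i (r • g) x‖ ≤ (1 / 2) ^ n := by
  have : ∀ i, ∃ R, ∀ x, ‖iteratedFDeriv ℝ i (fun x => g x) x‖ ≤ R := by
    intro i
    have : BddAbove (range fun x => ‖iteratedFDeriv ℝ i (fun x : E2 => g x) x‖) := by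
      apply (hg.continuous_iteratedFDeriv (mod_cast le_top)).norm.bddAbove_range_of_hasCompactSupport
      apply HasCompactSupport.comp_left _ norm_zero
      apply hc.iteratedFDeriv
    rcases this with ⟨R, hR⟩
    exact ⟨R, fun x => hR (mem_range_self _)⟩
  choose R hR using this
  let M := max (((Finset.range (n + 1)).image R).max' (by simp)) 1
  have hM : 0 < M := lt_of_lt_of_le one_pos (le_max_right _ _)
  have IR : ∀ i ≤ n, R i ≤ M := by
    intro i hi
    refine le_trans ?_ (le_max_left _ _)
    apply Finset.le_max'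
    apply Finset.mem_image_of_mem
    simp only [Finset.mem_range]
    omega
  refine ⟨M⁻¹ * (1 / 2) ^ n, by positivity, fun r hr0 hr i hi x => ?_⟩
  calc
    ‖iteratedFDeriv ℝ i (r • g) x‖ = ‖r • iteratedFDeriv ℝ i g x‖ := by
      rw [iteratedFDeriv_const_smul_apply]
      exact hg.contDiffAt.of_le (mod_cast le_top)
    _ = r * ‖iteratedFDeriv ℝ i g x‖ := by
      rw [norm_smul _ (iteratedFDeriv ℝ i g x), Real.norm_of_nonneg hr0]
    _ ≤ (M⁻¹ * (1 / 2) ^ n) * M := by
      apply mul_le_mul hr ((hR i x).trans (IR i hi)) (norm_nonneg _) (by positivity)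
    _ = (1 / 2) ^ n := by field_simp

lemma smooth_sum (F : ℕ → E2 → ℝ) (hF : ∀ k, ContDiff ℝ ∞ (F k)) (w : ℕ → ℝ)
    (hb : ∀ k, ∀ i ≤ k, ∀ x, ‖iteratedFDeriv ℝ i (w k • F k) x‖ ≤ (1 / 2) ^ k) :
    ContDiff ℝ ∞ (fun x => ∑' k, w k * F k x) ∧ ∀ x, Summable fun k => w k * F k x := by
  constructor
  · refine contDiff_tsum_of_eventually (f := fun k => w k • F k) (v := fun _ k => (1 / 2) ^ k)
      (fun k => (hF k).const_smul (w k)) (fun _ _ => summable_geometric_two) ?_
    intro i _
    rw [Nat.cofinite_eq_atTop]
    filter_upwards [Filter.Ici_mem_atTop i] with n hn x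
    exact hb n i hn x
  · intro x
    refine .of_norm_bounded summable_geometric_two fun k => ?_
    have := hb k 0 (Nat.zero_le k) x
    rw [norm_iteratedFDeriv_zero] at this
    simpa using this

lemma map_withDensity_add (h h' : E2 → ℝ≥0∞) (hh : Measurable h') (s : E2)
    (e : ∀ x, h' (x + s) = h x) :
    (volume.withDensity h).map (fun x => x + s) = volume.withDensity h' := by
  ext A hA
  have hms : Measurable fun x : E2 => x + s := measurable_id.add_const _
  rw [Measure.map_apply hms hA, withDensity_apply _ (hms hA), withDensity_apply _ hA]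
  have := (measurePreserving_add_right (volume : Measure E2) s).setLIntegral_comp_preimage hA hh
  rw [← this]
  simp_rw [e]

/-- The planar counterexample. -/
theorem main : ∃ f g : E2 → ℝ, ContDiff ℝ ∞ f ∧ ContDiff ℝ ∞ g ∧ HasCompactSupport f ∧
    HasCompactSupport g ∧ (∀ x, 0 ≤ f x) ∧ (∀ x, 0 ≤ g x) ∧
    IsProbabilityMeasure (volume.withDensity fun x => ENNReal.ofReal (f x)) ∧
    IsProbabilityMeasure (volume.withDensity fun x => ENNReal.ofReal (g x)) ∧
    (∃ π, IsOptimal (volume.withDensity fun x => ENNReal.ofReal (f x))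
      (volume.withDensity fun x => ENNReal.ofReal (g x)) π) ∧
    ∀ π, IsOptimal (volume.withDensity fun x => ENNReal.ofReal (f x))
      (volume.withDensity fun x => ENNReal.ofReal (g x)) π → 3 ≤ dimH (msupp π) := by
  classical
  obtain ⟨D⟩ := exists_data
  let B : ∀ k, ContDiffBump (0 : E2) := fun k =>
    ⟨D.r k / 2, D.r k, half_pos (D.hr k), half_lt_self (D.hr k)⟩
  let F : ℕ → E2 → ℝ := fun k x => B k (x - D.p k)
  let G : ℕ → E2 → ℝ := fun k x => B k (x - D.q k)
  have hF : ∀ k, ContDiff ℝ ∞ (F k) := fun k =>
    (B k).contDiff.comp (contDiff_id.sub contDiff_const)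
  have hG : ∀ k, ContDiff ℝ ∞ (G k) := fun k =>
    (B k).contDiff.comp (contDiff_id.sub contDiff_const)
  have supF : ∀ k x, x ∉ ball (D.p k) (D.r k) → F k x = 0 := by
    intro k x hx
    apply (B k).zero_of_le_dist
    rw [dist_zero_right, ← dist_eq_norm]
    simpa using hx
  have supG : ∀ k x, x ∉ ball (D.q k) (D.r k) → G k x = 0 := by
    intro k x hx
    apply (B k).zero_of_le_dist
    rw [dist_zero_right, ← dist_eq_norm]
    simpa using hx
  have posF : ∀ k x, x ∈ ball (D.p k) (D.r k) → 0 < F k x := by
    intro k x hx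
    apply (B k).pos_of_mem_ball
    rw [mem_ball, dist_zero_right, ← dist_eq_norm]
    exact hx
  have nnF : ∀ k x, 0 ≤ F k x := fun k x => (B k).nonneg
  have nnG : ∀ k x, 0 ≤ G k x := fun k x => (B k).nonneg
  have cF : ∀ k, HasCompactSupport (F k) := by
    intro k
    apply HasCompactSupport.of_support_subset_isCompact (isCompact_closedBall (D.p k) (D.r k))
    intro x hx
    by_contra h
    exact hx (supF k x fun h' => h (ball_subset_closedBall h'))
  have cG : ∀ k, HasCompactSupport (G k) := by
    intro k
    apply HasCompactSupport.of_support_subset_isCompact (isCompact_closedBall (D.q k) (D.r k))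
    intro x hx
    by_contra h
    exact hx (supG k x fun h' => h (ball_subset_closedBall h'))
  choose RF hRF0 hRF using fun k => exists_weight (F k) (hF k) (cF k) k
  choose RG hRG0 hRG using fun k => exists_weight (G k) (hG k) (cG k) k
  let w : ℕ → ℝ := fun k => if D.good k then min (RF k) (RG k) else 0
  have hw0 : ∀ k, 0 ≤ w k := by
    intro k
    by_cases hk : D.good k
    · simp only [w, hk, if_true]; exact (lt_min (hRF0 k) (hRG0 k)).le
    · simp [w, hk]
  have hwpos : ∀ k, D.good k → 0 < w k := by
    intro k hk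
    simp only [w, hk, if_true]; exact lt_min (hRF0 k) (hRG0 k)
  have hwbad : ∀ k, ¬ D.good k → w k = 0 := by
    intro k hk
    simp [w, hk]
  have hwF : ∀ k, w k ≤ RF k := by
    intro k
    by_cases hk : D.good k
    · simp only [w, hk, if_true]; exact min_le_left _ _
    · simp only [w, hk, if_false]; exact (hRF0 k).le
  have hwG : ∀ k, w k ≤ RG k := by
    intro k
    by_cases hk : D.good k
    · simp only [w, hk, if_true]; exact min_le_right _ _
    · simp only [w, hk, if_false]; exact (hRG0 k).le
  obtain ⟨smF, SF⟩ := smooth_sum F hF w (fun k i hi x => hRF k (w k) (hw0 k) (hwF k) i hi x)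
  obtain ⟨smG, SG⟩ := smooth_sum G hG w (fun k i hi x => hRG k (w k) (hw0 k) (hwG k) i hi x)
  set f0 : E2 → ℝ := fun x => ∑' k, w k * F k x with hf0
  set g0 : E2 → ℝ := fun x => ∑' k, w k * G k x with hg0
  have f0nn : ∀ x, 0 ≤ f0 x := fun x => tsum_nonneg fun k => mul_nonneg (hw0 k) (nnF k x)
  have g0nn : ∀ x, 0 ≤ g0 x := fun x => tsum_nonneg fun k => mul_nonneg (hw0 k) (nnG k x)
  have bnd : ∀ k, D.good k → ∀ x : E2, |x 0 - D.t k| < D.r k → x 1 < 5 → 0 < x 1 →
      x ∈ closedBall (0 : E2) 10 := by
    intro k hk x h1 h2 h3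
    have hin := D.hin k hk (mem_closedBall_self (D.hr k).le)
    have h8 := D.hr8 k
    rw [abs_lt] at h1
    rw [mem_closedBall]
    have h4 := dist_le_add x 0
    have e0 : (0 : E2) 0 = 0 := rfl
    have e1 : (0 : E2) 1 = 0 := rfl
    rw [e0, e1, sub_zero, sub_zero, abs_of_pos h3] at h4
    have h5 : |x 0| ≤ 3 := by
      rw [abs_le]
      constructor
      · linarith [hin.1]
      · linarith [hin.2]
    linarith
  have cf0 : HasCompactSupport f0 := by
    apply HasCompactSupport.of_support_subset_isCompact (isCompact_closedBall (0 : E2) 10)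
    intro x hx
    have : ∃ k, w k * F k x ≠ 0 := by
      by_contra hcon
      push Not at hcon
      apply hx
      simp only [hf0, hcon, tsum_zero]
    obtain ⟨k, hk⟩ := this
    have hg : D.good k := by
      by_contra h; exact hk (by rw [hwbad k h, zero_mul])
    have hxb : x ∈ ball (D.p k) (D.r k) := by
      by_contra h; exact hk (by rw [supF k x h, mul_zero])
    have h := D.src_coord hxb
    exact bnd k hg x h.1 (by linarith [h.2.2]) (by linarith [h.2.1])
  have cg0 : HasCompactSupport g0 := by
    apply HasCompactSupport.of_support_subset_isCompact (isCompact_closedBall (0 : E2) 10)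
    intro x hx
    have : ∃ k, w k * G k x ≠ 0 := by
      by_contra hcon
      push Not at hcon
      apply hx
      simp only [hg0, hcon, tsum_zero]
    obtain ⟨k, hk⟩ := this
    have hg : D.good k := by
      by_contra h; exact hk (by rw [hwbad k h, zero_mul])
    have hxb : x ∈ ball (D.q k) (D.r k) := by
      by_contra h; exact hk (by rw [supG k x h, mul_zero])
    have h := D.tgt_coord hxb
    exact bnd k hg x h.1 (by linarith [h.2.2]) (by linarith [h.2.1])
  -- a good index
  obtain ⟨k0, hk0⟩ : ∃ k, D.good k := by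
    have : D.K.Nonempty := by
      by_contra h
      rw [Set.not_nonempty_iff_eq_empty] at h
      apply D.hK
      rw [h, measure_empty]
    obtain ⟨τ, hτ⟩ := this
    obtain ⟨k, hk, _⟩ := D.happ τ hτ 1 ⟨le_rfl, by norm_num⟩ 3 ⟨le_rfl, by norm_num⟩ 1 one_pos
    exact ⟨k, hk⟩
  -- total mass
  set M : ℝ := ∫ x, f0 x with hM
  have f0c : Continuous f0 := smF.continuous
  have f0int : Integrable f0 := f0c.integrable_of_hasCompactSupport cf0
  have hMpos : 0 < M := by
    rw [hM, integral_pos_iff_support_of_nonneg f0nn f0int]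
    have hop : IsOpen (Function.support f0) := f0c.isOpen_support
    have h1 : 0 < w k0 * F k0 (D.p k0) :=
      mul_pos (hwpos k0 hk0) (posF k0 _ (mem_ball_self (D.hr k0)))
    have hne : (Function.support f0).Nonempty :=
      ⟨D.p k0, ((SF _).tsum_pos (fun k => mul_nonneg (hw0 k) (nnF k _)) k0 h1).ne'⟩
    exact hop.measure_pos volume hne
  set C : ℝ := M⁻¹ with hC
  have hCpos : 0 < C := inv_pos.mpr hMpos
  let m : ℕ → Measure E2 := fun k => volume.withDensity fun x => ENNReal.ofReal (C * (w k * F k x))
  have hm : ∀ k, m k (ball (D.p k) (D.r k))ᶜ = 0 := by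
    intro k
    rw [withDensity_apply _ measurableSet_ball.compl]
    apply setLIntegral_eq_zero measurableSet_ball.compl
    intro x hx
    show ENNReal.ofReal (C * (w k * F k x)) = 0
    rw [supF k x hx]
    simp
  have measF : ∀ k, Measurable fun x => ENNReal.ofReal (C * (w k * F k x)) := fun k =>
    (((hF k).continuous.measurable.const_mul _).const_mul _).ennreal_ofReal
  have measG : ∀ k, Measurable fun x => ENNReal.ofReal (C * (w k * G k x)) := fun k =>
    (((hG k).continuous.measurable.const_mul _).const_mul _).ennreal_ofReal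
  have hgood : ∀ k, D.good k ↔ m k ≠ 0 := by
    intro k
    constructor
    · intro hk h0
      have h1 : m k (ball (D.p k) (D.r k)) = 0 := by rw [h0]; rfl
      rw [withDensity_apply _ measurableSet_ball, lintegral_eq_zero_iff (measF k)] at h1
      have h2 : ∀ᵐ x ∂(volume.restrict (ball (D.p k) (D.r k))), False := by
        filter_upwards [h1, ae_restrict_mem measurableSet_ball] with x hx hxb
        have : 0 < C * (w k * F k x) := mul_pos hCpos (mul_pos (hwpos k hk) (posF k x hxb))
        simp only [Pi.zero_apply, ENNReal.ofReal_eq_zero] at hx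
        linarith
      rw [Filter.eventually_false_iff_eq_bot, ae_eq_bot, Measure.restrict_eq_zero] at h2
      exact (measure_ball_pos volume (D.p k) (D.hr k)).ne' h2
    · intro h
      by_contra hk
      apply h
      show volume.withDensity (fun x => ENNReal.ofReal (C * (w k * F k x))) = 0
      have : (fun x => ENNReal.ofReal (C * (w k * F k x))) = 0 := by
        funext x
        rw [hwbad k hk]
        simp
      rw [this, withDensity_zero]
  have sumF : Measure.sum m = volume.withDensity fun x => ENNReal.ofReal (C * f0 x) := by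
    rw [← withDensity_tsum measF]
    congr 1
    funext x
    rw [tsum_apply (Pi.summable.2 fun _ => ENNReal.summable),
      ← ENNReal.ofReal_tsum_of_nonneg
        (fun k => mul_nonneg hCpos.le (mul_nonneg (hw0 k) (nnF k x))) ((SF x).mul_left C),
      tsum_mul_left]
  have tgtG : ∀ k, D.tgt m k = volume.withDensity fun x => ENNReal.ofReal (C * (w k * G k x)) := by
    intro k
    apply map_withDensity_add _ _ (measG k)
    intro x
    have : x + D.s k - D.q k = x - D.p k := by rw [← D.p_add_s k]; abel
    show ENNReal.ofReal (C * (w k * B k (x + D.s k - D.q k))) = _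
    rw [this]
  have sumG : Measure.sum (D.tgt m) = volume.withDensity fun x => ENNReal.ofReal (C * g0 x) := by
    have : D.tgt m = fun k => volume.withDensity fun x => ENNReal.ofReal (C * (w k * G k x)) := by
      funext k; exact tgtG k
    rw [this, ← withDensity_tsum measG]
    congr 1
    funext x
    rw [tsum_apply (Pi.summable.2 fun _ => ENNReal.summable),
      ← ENNReal.ofReal_tsum_of_nonneg
        (fun k => mul_nonneg hCpos.le (mul_nonneg (hw0 k) (nnG k x))) ((SG x).mul_left C),
      tsum_mul_left]
  have h1 : IsProbabilityMeasure (Measure.sum m) := by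
    constructor
    rw [sumF, withDensity_apply _ MeasurableSet.univ, Measure.restrict_univ,
      ← ofReal_integral_eq_lintegral_ofReal (f0int.const_mul C)
        (Filter.Eventually.of_forall fun x => mul_nonneg hCpos.le (f0nn x)),
      integral_const_mul, ← hM, hC, inv_mul_cancel₀ hMpos.ne', ENNReal.ofReal_one]
  have h2 : IsProbabilityMeasure (Measure.sum (D.tgt m)) := by
    constructor
    have := (D.vert_coupling m h1).1.measure_univ
    rw [← D.vert_snd m, Measure.map_apply measurable_snd MeasurableSet.univ]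
    simpa using this
  refine ⟨fun x => C * f0 x, fun x => C * g0 x, contDiff_const.mul smF, contDiff_const.mul smG,
    cf0.mul_left, cg0.mul_left, fun x => mul_nonneg hCpos.le (f0nn x),
    fun x => mul_nonneg hCpos.le (g0nn x), ?_, ?_, ?_, ?_⟩
  · rw [← sumF]; exact h1
  · rw [← sumG]; exact h2
  · rw [← sumF, ← sumG]
    exact ⟨_, D.vert_optimal m hm hgood h1⟩
  · intro π hπ
    rw [← sumF, ← sumG] at hπ
    exact D.optimal_dimH m hm hgood h1 hπ

end Pool.Agent.X205.OT
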